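import Mathlib

namespace Pool.Agent.Results.MP_b039ef_an.No
open Set MeasureTheory
open scoped ENNReal

abbrev E := EuclideanSpace ℝ (Fin 2)

/-- Least number of sets of diameter at most `r` covering `S`. -/
noncomputable def N (r : ℝ) (S : Set E) : ℝ≥0∞ :=
  ⨅ (U : Finset (Set E)) (_ : (∀ u ∈ U, ∀ x ∈ u, ∀ y ∈ u, dist x y ≤ r) ∧ S ⊆ ⋃ u ∈ U, u),
    (U.card : ℝ≥0∞)

/-- Assouad dimension. -/
noncomputable def dimA (F : Set E) : ℝ≥0∞ :=
  ⨅ (s : ℝ) (_ : 0 ≤ s ∧ ∃ C : ℝ, 0 < C ∧ ∀ x ∈ F, ∀ r R : ℝ, 0 < r → r < R →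
    N r (Metric.ball x R ∩ F) ≤ ENNReal.ofReal (C * (R / r) ^ s)), ENNReal.ofReal s

/-- Lower dimension. -/
noncomputable def dimL (F : Set E) : ℝ≥0∞ :=
  ⨆ (s : ℝ) (_ : 0 ≤ s ∧ ∃ C : ℝ, 0 < C ∧ ∀ x ∈ F, ∀ r R : ℝ, 0 < r → r < R → R ≤ Metric.diam F →
    ENNReal.ofReal (C * (R / r) ^ s) ≤ N r (Metric.ball x R ∩ F)), ENNReal.ofReal s

theorem grow {c K a b : ℝ} (hc : 0 < c) (hb : 0 < b) (h : ∀ n : ℕ, c * a ^ n ≤ K * b ^ n) :
    a ≤ b := by
  by_contra hab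
  have h1 : 1 < a / b := (one_lt_div hb).2 (not_le.1 hab)
  obtain ⟨n, hn⟩ := pow_unbounded_of_one_lt (K / c) h1
  rw [div_pow, div_lt_div_iff₀ hc (pow_pos hb n)] at hn
  have := h n
  nlinarith

theorem co (x y : E) (i : Fin 2) : |x i - y i| ≤ dist x y := by
  simpa [Real.dist_eq] using PiLp.dist_apply_le x y i

theorem co2 (x y : E) : dist x y ≤ |x 0 - y 0| + |x 1 - y 1| := by
  rw [EuclideanSpace.dist_eq, Fin.sum_univ_two, Real.dist_eq, Real.dist_eq]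
  refine Real.sqrt_le_iff.2 ⟨by positivity, ?_⟩
  nlinarith [abs_nonneg (x 0 - y 0), abs_nonneg (x 1 - y 1)]

section
variable {F : Set E} {S T : E → E} {a a' b b' : ℝ}
  (hS0 : ∀ x, S x 0 = x 0 / 4 + a) (hT0 : ∀ x, T x 0 = x 0 / 4 + a')
  (hS1 : ∀ x, S x 1 = x 1 / 27 + b) (hT1 : ∀ x, T x 1 = 8 * x 1 / 27 + b')
  (hc : IsCompact F) (hn : F.Nonempty) (hS : ∀ x ∈ F, S x ∈ F) (hT : ∀ x ∈ F, T x ∈ F)
  (hF : ∀ x ∈ F, ∃ y ∈ F, x = S y ∨ x = T y)

include hc hn in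
theorem exmax (i : Fin 2) (c : ℝ) : ∃ p ∈ F, ∀ q ∈ F, |q i - c| ≤ |p i - c| :=
  hc.exists_isMaxOn hn (f := fun q : E => |q i - c|) (by fun_prop)

include hS0 hT0 hc hn hF in
theorem gapx : ∀ p ∈ F, ∀ q ∈ F, |a - a'| / 4 ≤ |S p 0 - T q 0| := by
  obtain ⟨m, hm, h⟩ := exmax hc hn 0 (4 * a / 3)
  have hM : |m 0 - 4 * a / 3| ≤ 4 / 3 * |a - a'| := by
    obtain ⟨y, hy, e | e⟩ := hF m hm
    · have := h y hy
      have e2 : m 0 - 4 * a / 3 = (y 0 - 4 * a / 3) / 4 := by rw [e, hS0]; ring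
      rw [e2, abs_div] at this ⊢
      norm_num at this ⊢; nlinarith [abs_nonneg (a - a'), abs_nonneg (y 0 - 4 * a / 3)]
    · have := h y hy
      have e2 : m 0 - 4 * a / 3 = (y 0 - 4 * a / 3) / 4 - (a - a') := by rw [e, hT0]; ring
      have h3 := abs_sub ((y 0 - 4 * a / 3) / 4) (a - a')
      rw [← e2, abs_div] at h3
      norm_num at h3; linarith
  intro p hp q hq
  have h1 := abs_le.1 ((h p hp).trans hM)
  have h2 := abs_le.1 ((h q hq).trans hM)
  rw [hS0, hT0]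
  rcases abs_cases (a - a') with ⟨e, -⟩ | ⟨e, -⟩ <;> rw [e] at h1 h2 ⊢
  · exact le_abs.2 (Or.inl (by linarith [h1.1, h2.2]))
  · exact le_abs.2 (Or.inr (by linarith [h1.2, h2.1]))

include hS1 hT1 hc hn hF in
theorem gapy : ∀ p ∈ F, ∀ q ∈ F, |27 * b / 26 - 27 * b' / 19| / 12 ≤ |S p 1 - T q 1| := by
  obtain ⟨m, hm, h⟩ := exmax hc hn 1 (27 * b / 26)
  have hM : |m 1 - 27 * b / 26| ≤ |27 * b / 26 - 27 * b' / 19| := by
    obtain ⟨y, hy, e | e⟩ := hF m hm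
    · have := h y hy
      have e2 : m 1 - 27 * b / 26 = (y 1 - 27 * b / 26) / 27 := by rw [e, hS1]; ring
      rw [e2, abs_div] at this ⊢
      norm_num at this ⊢
      nlinarith [abs_nonneg (27 * b / 26 - 27 * b' / 19), abs_nonneg (y 1 - 27 * b / 26)]
    · have := h y hy
      have e2 : m 1 - 27 * b / 26 = 8 / 27 * (y 1 - 27 * b / 26) -
          19 / 27 * (27 * b / 26 - 27 * b' / 19) := by rw [e, hT1]; ring
      have h3 := abs_sub (8 / 27 * (y 1 - 27 * b / 26)) (19 / 27 * (27 * b / 26 - 27 * b' / 19))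
      rw [← e2, abs_mul, abs_mul] at h3
      norm_num at h3 ⊢; linarith
  intro p hp q hq
  have h1 := abs_le.1 ((h p hp).trans hM)
  have h2 := abs_le.1 ((h q hq).trans hM)
  rw [hS1, hT1]
  rcases abs_cases (27 * b / 26 - 27 * b' / 19) with ⟨e, e'⟩ | ⟨e, e'⟩ <;> rw [e] at h1 h2 ⊢
  · exact le_abs.2 (Or.inl (by linarith [h1.1, h2.2]))
  · exact le_abs.2 (Or.inr (by linarith [h1.2, h2.1]))

include hS0 hT0 hn hS hT in
theorem sep {g : ℝ} (hg : 0 < g) (hgap : ∀ p ∈ F, ∀ q ∈ F, g ≤ |S p 0 - T q 0|) (n : ℕ) :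
    ∃ P : Finset E, P.card = 2 ^ n ∧ (∀ p ∈ P, p ∈ F) ∧
      ∀ p ∈ P, ∀ q ∈ P, p ≠ q → g / 4 ^ n ≤ |p 0 - q 0| := by
  classical
  induction n with
  | zero => obtain ⟨x, hx⟩ := hn; exact ⟨{x}, by simp, by simpa, by simp⟩
  | succ n ih =>
    obtain ⟨P, h1, h2, h3⟩ := ih
    have hp : 0 < g / 4 ^ n := by positivity
    have key : ∀ (R : E → E) (c : ℝ), (∀ x, R x 0 = x 0 / 4 + c) → ∀ p ∈ P, ∀ q ∈ P, p ≠ q →
        g / 4 ^ (n + 1) ≤ |R p 0 - R q 0| := by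
      intro R c hR p hp q hq hne
      have := h3 p hp q hq hne
      rw [hR, hR, show p 0 / 4 + c - (q 0 / 4 + c) = (p 0 - q 0) / 4 by ring, abs_div, pow_succ,
        ← div_div]
      norm_num; linarith
    have hp' : 0 < g / 4 ^ (n + 1) := by positivity
    have inj : ∀ (R : E → E) (c : ℝ), (∀ x, R x 0 = x 0 / 4 + c) → InjOn R P := by
      intro R c hR p hp q hq e
      by_contra hne
      have := key R c hR p hp q hq hne
      rw [e] at this; simp at this; linarith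
    have le : g / 4 ^ (n + 1) ≤ g := div_le_self hg.le (one_le_pow₀ (by norm_num))
    refine ⟨P.image S ∪ P.image T, ?_, ?_, ?_⟩
    · rw [Finset.card_union_of_disjoint, Finset.card_image_of_injOn (inj S a hS0),
        Finset.card_image_of_injOn (inj T a' hT0), h1]
      · ring
      · rw [Finset.disjoint_left]
        simp only [Finset.mem_image]
        rintro _ ⟨p, hp, rfl⟩ ⟨q, hq, e⟩
        have := hgap p (h2 p hp) q (h2 q hq)
        rw [e] at this; simp at this; linarith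
    · simp only [Finset.mem_union, Finset.mem_image]
      rintro _ (⟨p, hp, rfl⟩ | ⟨p, hp, rfl⟩)
      exacts [hS p (h2 p hp), hT p (h2 p hp)]
    · simp only [Finset.mem_union, Finset.mem_image]
      rintro _ (⟨p, hp, rfl⟩ | ⟨p, hp, rfl⟩) _ (⟨q, hq, rfl⟩ | ⟨q, hq, rfl⟩) hne
      · exact key S a hS0 p hp q hq fun e => hne (e ▸ rfl)
      · exact le.trans (hgap p (h2 p hp) q (h2 q hq))
      · rw [abs_sub_comm]; exact le.trans (hgap q (h2 q hq) p (h2 p hp))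
      · exact key T a' hT0 p hp q hq fun e => hne (e ▸ rfl)

include hS0 hT0 hc hn hS hT hF in
theorem lowA (ha : a ≠ a') : ENNReal.ofReal (1 / 2) ≤ dimA F := by
  refine le_iInf₂ fun s ⟨_, C, hC, h⟩ => ENNReal.ofReal_le_ofReal ?_
  have hg : 0 < |a - a'| / 4 := by have := abs_pos.2 (sub_ne_zero.2 ha); positivity
  set g := |a - a'| / 4
  obtain ⟨x, hx⟩ := hn
  obtain ⟨R0, hR0⟩ := hc.isBounded.subset_ball x
  have hR : 0 < R0 := by simpa using hR0 hx
  have : (2 : ℝ) ≤ 4 ^ s := by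
    refine grow (c := 1) (K := C * (2 * (R0 + g) / g) ^ s) one_pos (by positivity) fun n => ?_
    obtain ⟨P, h1, h2, h3⟩ := sep hS0 hT0 ⟨x, hx⟩ hS hT hg (gapx hS0 hT0 hc ⟨x, hx⟩ hF) n
    have le : g / 4 ^ n ≤ g := div_le_self hg.le (one_le_pow₀ (by norm_num))
    have hp : 0 < g / 4 ^ n := by positivity
    have h4 := h x hx (g / 4 ^ n / 2) (R0 + g) (by positivity) (by linarith)
    have h5 : ((2 ^ n : ℕ) : ℝ≥0∞) ≤ N (g / 4 ^ n / 2) (Metric.ball x (R0 + g) ∩ F) := by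
      refine le_iInf₂ fun U ⟨hU, hU'⟩ => ?_
      have : ∀ p ∈ P, ∃ u ∈ U, p ∈ u := fun p hp => by
        simpa using hU' ⟨Metric.ball_subset_ball (by linarith) (hR0 (h2 p hp)), h2 p hp⟩
      choose! f hf hf' using this
      rw [← h1]
      refine Nat.cast_le.2 (Finset.card_le_card_of_injOn f hf fun p hp q hq e => ?_)
      by_contra hne
      have := h3 p hp q hq hne
      have := hU _ (hf p hp) p (hf' p hp) q (e ▸ hf' q hq)
      have := co p q 0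
      linarith
    have h6 := h5.trans h4
    rw [← ENNReal.ofReal_natCast, ENNReal.ofReal_le_ofReal_iff (by positivity),
      show (R0 + g) / (g / 4 ^ n / 2) = 2 * (R0 + g) / g * 4 ^ n by field_simp,
      Real.mul_rpow (by positivity) (by positivity), ← Real.rpow_pow_comm (by norm_num)] at h6
    push_cast at h6
    linarith
  by_contra hs
  have h7 : (4 : ℝ) ^ s < 4 ^ (1 / 2 : ℝ) := Real.rpow_lt_rpow_of_exponent_lt (by norm_num) (not_le.1 hs)
  have h8 : (4 : ℝ) ^ (1 / 2 : ℝ) = 2 := by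
    rw [show (4 : ℝ) = 2 ^ (2 : ℝ) by norm_num, ← Real.rpow_mul (by norm_num)]; norm_num
  linarith

include hS1 hT1 hS hT hF in
theorem covy {D : ℝ} (hD0 : 0 < D) (hD : ∀ p ∈ F, ∀ q ∈ F, |p 1 - q 1| ≤ D) (m : ℕ) :
    ∀ τ : ℝ, (2 / 3) ^ m ≤ τ → τ ≤ 3 → ∃ U : Finset (Set E), (U.card : ℝ) ≤ 3 / τ ∧
      (∀ u ∈ U, u ⊆ F) ∧ (∀ u ∈ U, ∀ x ∈ u, ∀ y ∈ u, |x 1 - y 1| ≤ D * τ ^ 3) ∧
      ∀ x ∈ F, ∃ u ∈ U, x ∈ u := by
  classical
  have base : ∀ τ : ℝ, 1 ≤ τ → τ ≤ 3 → ∃ U : Finset (Set E), (U.card : ℝ) ≤ 3 / τ ∧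
      (∀ u ∈ U, u ⊆ F) ∧ (∀ u ∈ U, ∀ x ∈ u, ∀ y ∈ u, |x 1 - y 1| ≤ D * τ ^ 3) ∧
      ∀ x ∈ F, ∃ u ∈ U, x ∈ u := by
    intro τ h1 h2
    refine ⟨{F}, ?_, by simp, ?_, by simp⟩
    · simpa using (one_le_div (by linarith)).2 h2
    · simp only [Finset.mem_singleton]
      rintro u rfl x hx y hy
      exact (hD x hx y hy).trans (le_mul_of_one_le_right hD0.le (one_le_pow₀ h1))
  induction m with
  | zero => intro τ h1 h2; exact base τ (by simpa using h1) h2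
  | succ m ih =>
    intro τ h1 h2
    by_cases h : 1 ≤ τ
    · exact base τ h h2
    have hp : (0 : ℝ) < (2 / 3) ^ m := by positivity
    rw [pow_succ] at h1
    have hτ : 0 < τ := by linarith
    obtain ⟨U, a1, a2, a3, a4⟩ := ih (3 * τ) (by linarith) (by linarith)
    obtain ⟨V, b1, b2, b3, b4⟩ := ih (3 * τ / 2) (by linarith) (by linarith)
    refine ⟨U.image (S '' ·) ∪ V.image (T '' ·), ?_, ?_, ?_, ?_⟩
    · have h3 : (U.image (S '' ·) ∪ V.image (T '' ·)).card ≤ U.card + V.card :=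
        (Finset.card_union_le _ _).trans (add_le_add Finset.card_image_le Finset.card_image_le)
      have h4 : 3 / (3 * τ) + 3 / (3 * τ / 2) = 3 / τ := by field_simp; norm_num
      have h5 : ((U.image (S '' ·) ∪ V.image (T '' ·)).card : ℝ) ≤ U.card + V.card := by
        exact_mod_cast h3
      linarith
    · simp only [Finset.mem_union, Finset.mem_image]
      rintro _ (⟨u, hu, rfl⟩ | ⟨u, hu, rfl⟩) _ ⟨x, hx, rfl⟩
      exacts [hS x (a2 u hu hx), hT x (b2 u hu hx)]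
    · simp only [Finset.mem_union, Finset.mem_image]
      rintro _ (⟨u, hu, rfl⟩ | ⟨u, hu, rfl⟩) _ ⟨x, hx, rfl⟩ _ ⟨y, hy, rfl⟩
      · have := abs_le.1 (a3 u hu x hx y hy)
        rw [hS1, hS1, abs_le]; constructor <;> nlinarith [this.1, this.2]
      · have := abs_le.1 (b3 u hu x hx y hy)
        rw [hT1, hT1, abs_le]; constructor <;> nlinarith [this.1, this.2]
    · intro x hx
      simp only [Finset.mem_union, Finset.mem_image]
      obtain ⟨y, hy, rfl | rfl⟩ := hF x hx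
      · obtain ⟨u, hu, hy⟩ := a4 y hy
        exact ⟨_, Or.inl ⟨u, hu, rfl⟩, y, hy, rfl⟩
      · obtain ⟨u, hu, hy⟩ := b4 y hy
        exact ⟨_, Or.inr ⟨u, hu, rfl⟩, y, hy, rfl⟩

include hT in
theorem itF (k : ℕ) : ∀ q ∈ F, T^[k] q ∈ F := by
  induction k with
  | zero => simp
  | succ k ih => intro q hq; rw [Function.iterate_succ_apply']; exact hT _ (ih q hq)

include hT0 hT1 in
theorem itd (k : ℕ) (p q : E) : T^[k] p 0 - T^[k] q 0 = (1 / 4) ^ k * (p 0 - q 0) ∧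
    T^[k] p 1 - T^[k] q 1 = (8 / 27) ^ k * (p 1 - q 1) := by
  induction k with
  | zero => simp
  | succ k ih =>
    simp only [Function.iterate_succ_apply', hT0, hT1, pow_succ]
    constructor
    · linear_combination ih.1 / 4
    · linear_combination 8 / 27 * ih.2

include hT1 hT hF in
theorem near {g : ℝ} (hg : 0 < g) (hgap : ∀ p ∈ F, ∀ q ∈ F, g ≤ |S p 1 - T q 1|) (k : ℕ) :
    ∀ q ∈ F, ∀ p ∈ F, |p 1 - T^[k] q 1| < g * (8 / 27) ^ k → ∃ p' ∈ F, p = T^[k] p' := by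
  induction k with
  | zero => intro q _ p hp _; exact ⟨p, hp, rfl⟩
  | succ k ih =>
    intro q hq p hp h
    rw [Function.iterate_succ_apply'] at h
    obtain ⟨y, hy, rfl | rfl⟩ := hF p hp
    · have := hgap y hy _ (itF hT k q hq)
      have h2 : g * (8 / 27) ^ (k + 1) ≤ g :=
        mul_le_of_le_one_right hg.le (pow_le_one₀ (by norm_num) (by norm_num))
      linarith
    · rw [hT1, hT1, pow_succ, abs_lt] at h
      obtain ⟨p', hp', e⟩ := ih q hq y hy (abs_lt.2 ⟨by linarith [h.1], by linarith [h.2]⟩)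
      exact ⟨p', hp', by rw [Function.iterate_succ_apply', ← e]⟩

include hT0 hS1 hT1 hc hn hS hT hF in
theorem upL (hb : 27 * b / 26 ≠ 27 * b' / 19) : dimL F ≤ ENNReal.ofReal (1 / 3) := by
  classical
  refine iSup₂_le fun s ⟨_, C, hC, h⟩ => ENNReal.ofReal_le_ofReal ?_
  have hg : 0 < |27 * b / 26 - 27 * b' / 19| / 12 := by
    have := abs_pos.2 (sub_ne_zero.2 hb); positivity
  have hgap := gapy hS1 hT1 hc hn hF
  set g := |27 * b / 26 - 27 * b' / 19| / 12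
  obtain ⟨q, hq⟩ := hn
  set D := Metric.diam F
  have hD : ∀ i, ∀ p ∈ F, ∀ p' ∈ F, |p i - p' i| ≤ D := fun i p hp p' hp' =>
    (co p p' i).trans (Metric.dist_le_diam_of_mem hc.isBounded hp hp')
  have hgD : g ≤ D := (hgap q hq q hq).trans (hD 1 _ (hS q hq) _ (hT q hq))
  have hD0 : 0 < D := by linarith
  have : (8 : ℝ) ^ s ≤ 2 := by
    refine grow (c := C * (4 * D ^ 2 / g ^ 2) ^ s) (K := 6 * D / g) (by positivity) two_pos fun n => ?_
    set τ : ℝ := g / (2 * D) / 2 ^ n with hτ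
    have τ0 : 0 < τ := by positivity
    have τ1 : τ ≤ g / (2 * D) := div_le_self (by positivity) (one_le_pow₀ (by norm_num))
    have τ2 : g / (2 * D) ≤ 1 / 2 := by rw [div_le_iff₀ (by positivity)]; linarith
    obtain ⟨m, hm⟩ := exists_pow_lt_of_lt_one τ0 (show (2 / 3 : ℝ) < 1 by norm_num)
    obtain ⟨U, a1, a2, a3, a4⟩ := covy hS1 hT1 hS hT hF hD0 (hD 1) m τ hm.le (by linarith)
    obtain ⟨k, hk⟩ := exists_pow_lt_of_lt_one (pow_pos τ0 3) (show (27 / 32 : ℝ) < 1 by norm_num)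
    have hβ : (0 : ℝ) < (8 / 27) ^ k := by positivity
    have hβ1 : ((8 : ℝ) / 27) ^ k ≤ 1 := pow_le_one₀ (by norm_num) (by norm_num)
    have hlt : 2 * D * τ ^ 3 < g := by
      have h1 : 2 * D * τ ≤ g := by
        have := (le_div_iff₀ (show 0 < 2 * D by positivity)).1 τ1; linarith
      have h2 : τ ^ 2 < 1 := by nlinarith
      have h3 : 0 < 2 * D * τ := by positivity
      nlinarith
    have h4 := h _ (itF hT k q hq) (2 * D * τ ^ 3 * (8 / 27) ^ k) (g * (8 / 27) ^ k) (by positivity)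
      (mul_lt_mul_of_pos_right hlt hβ) (by nlinarith)
    have h5 : N (2 * D * τ ^ 3 * (8 / 27) ^ k) (Metric.ball (T^[k] q) (g * (8 / 27) ^ k) ∩ F) ≤
        (U.card : ℝ≥0∞) := by
      refine (iInf₂_le (U.image (T^[k] '' ·)) ⟨?_, ?_⟩).trans (Nat.cast_le.2 Finset.card_image_le)
      · simp only [Finset.mem_image]
        rintro _ ⟨u, hu, rfl⟩ _ ⟨x, hx, rfl⟩ _ ⟨y, hy, rfl⟩
        refine (co2 _ _).trans ?_
        rw [(itd hT0 hT1 k x y).1, (itd hT0 hT1 k x y).2, abs_mul, abs_mul, abs_of_pos hβ,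
          abs_of_pos (by positivity : (0 : ℝ) < (1 / 4) ^ k)]
        have e : ((1 : ℝ) / 4) ^ k = (27 / 32) ^ k * (8 / 27) ^ k := by rw [← mul_pow]; norm_num
        have c1 := hD 0 x (a2 u hu hx) y (a2 u hu hy)
        have c2 := a3 u hu x hx y hy
        have c3 : (27 / 32) ^ k * |x 0 - y 0| ≤ τ ^ 3 * D :=
          mul_le_mul hk.le c1 (abs_nonneg _) (by positivity)
        rw [e]
        nlinarith [mul_le_mul_of_nonneg_left c3 hβ.le, mul_le_mul_of_nonneg_left c2 hβ.le]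
      · rintro p ⟨hp1, hp⟩
        obtain ⟨p', hp', rfl⟩ := near hT1 hT hF hg hgap k q hq p hp ((co _ _ 1).trans_lt hp1)
        obtain ⟨u, hu, hpu⟩ := a4 p' hp'
        simp only [mem_iUnion, Finset.mem_image]
        exact ⟨_, ⟨u, hu, rfl⟩, p', hpu, rfl⟩
    have h6 := h4.trans h5
    have e8 : (8 : ℝ) ^ n = (2 ^ n) ^ 3 := by rw [← pow_mul, mul_comm, pow_mul]; norm_num
    rw [← ENNReal.ofReal_natCast, ENNReal.ofReal_le_ofReal_iff (by positivity),
      show g * (8 / 27) ^ k / (2 * D * τ ^ 3 * (8 / 27) ^ k) = 4 * D ^ 2 / g ^ 2 * 8 ^ n by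
        rw [hτ, e8]; field_simp; norm_num,
      Real.mul_rpow (by positivity) (by positivity), ← Real.rpow_pow_comm (by norm_num)] at h6
    have e3 : 3 / τ = 6 * D / g * 2 ^ n := by rw [hτ]; field_simp; norm_num
    linarith
  by_contra hs
  have h7 : (8 : ℝ) ^ (1 / 3 : ℝ) < 8 ^ s := Real.rpow_lt_rpow_of_exponent_lt (by norm_num) (not_le.1 hs)
  have h8 : (8 : ℝ) ^ (1 / 3 : ℝ) = 2 := by
    rw [show (8 : ℝ) = 2 ^ (3 : ℝ) by norm_num, ← Real.rpow_mul (by norm_num)]; norm_num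
  linarith
end

noncomputable def dg (c : ℝ) : E →L[ℝ] E :=
  LinearMap.toContinuousLinearMap
    { toFun := fun x => !₂[x 0 / 4, c * x 1]
      map_add' := fun x y => by ext i; fin_cases i <;> simp <;> ring
      map_smul' := fun r x => by ext i; fin_cases i <;> simp <;> ring }

theorem dg0 (c : ℝ) (x : E) : dg c x 0 = x 0 / 4 := by simp [dg]
theorem dg1 (c : ℝ) (x : E) : dg c x 1 = c * x 1 := by simp [dg]

theorem dgn (c : ℝ) (h0 : 0 < c) (h : c ≤ 1 / 3) : ‖dg c‖ < 1 / 2 ∧ Function.Injective (dg c) := by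
  constructor
  · refine (ContinuousLinearMap.opNorm_le_bound _ (show (0 : ℝ) ≤ 1 / 3 by norm_num) fun x => ?_).trans_lt
      (by norm_num)
    refine (sq_le_sq₀ (norm_nonneg _) (by positivity)).1 ?_
    rw [mul_pow, EuclideanSpace.real_norm_sq_eq, EuclideanSpace.real_norm_sq_eq, Fin.sum_univ_two,
      Fin.sum_univ_two, dg0, dg1, mul_pow]
    have : c ^ 2 ≤ 1 / 9 := by nlinarith
    nlinarith [sq_nonneg (x 0), mul_le_mul_of_nonneg_right this (sq_nonneg (x 1))]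
  · intro x y e
    have e0 := congrArg (· 0) e
    have e1 := congrArg (· 1) e
    simp only [dg0, dg1] at e0 e1
    ext i; fin_cases i
    · simpa using e0
    · exact mul_left_cancel₀ h0.ne' e1

theorem null (c c' : ℝ) (hc : c ≠ 0) (i : Fin 2) : ∀ᵐ t : Fin 2 → E, c * t 0 i ≠ c' * t 1 i := by
  let f : (Fin 2 → E) →ₗ[ℝ] ℝ :=
    { toFun := fun t => c * t 0 i - c' * t 1 i
      map_add' := fun x y => by simp; ring
      map_smul' := fun r x => by simp; ring }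
  have h := Measure.addHaar_submodule (volume : Measure (Fin 2 → E)) (LinearMap.ker f) (by
    intro e
    have : (![EuclideanSpace.single i 1, 0] : Fin 2 → E) ∈ LinearMap.ker f := e ▸ Submodule.mem_top
    simp [f, hc] at this)
  rw [ae_iff]
  refine measure_mono_null (fun t ht => ?_) h
  simp only [ne_eq, not_not, mem_ofPred_eq] at ht
  simp [f, ht]

theorem result : ∃ A : Fin 2 → E →L[ℝ] E, (∀ i, ‖A i‖ < 1 / 2 ∧ Function.Injective (A i)) ∧
    ∀ᵐ t : Fin 2 → E, ∀ F : Set E, IsCompact F → F.Nonempty →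
      F = ⋃ i, (fun x => A i x + t i) '' F →
      dimL F ≤ ENNReal.ofReal (1 / 3) ∧ ENNReal.ofReal (1 / 2) ≤ dimA F := by
  refine ⟨![dg (1 / 27), dg (8 / 27)], fun i => ?_, ?_⟩
  · fin_cases i <;> exact dgn _ (by norm_num) (by norm_num)
  filter_upwards [null 1 1 one_ne_zero 0, null (27 / 26) (27 / 19) (by norm_num) 1] with t h0 h1 F hc hn hF
  have hm : ∀ i, ∀ x ∈ F, (![dg (1 / 27), dg (8 / 27)] : Fin 2 → E →L[ℝ] E) i x + t i ∈ F :=
    fun i x hx => hF.symm.subset (mem_iUnion.2 ⟨i, x, hx, rfl⟩)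
  have hF' : ∀ x ∈ F, ∃ y ∈ F, x = dg (1 / 27) y + t 0 ∨ x = dg (8 / 27) y + t 1 := by
    intro x hx
    obtain ⟨i, y, hy, e⟩ := mem_iUnion.1 (hF.subset hx)
    refine ⟨y, hy, ?_⟩
    fin_cases i
    exacts [Or.inl e.symm, Or.inr e.symm]
  have s0 : ∀ x : E, (dg (1 / 27) x + t 0) 0 = x 0 / 4 + t 0 0 := fun x => by simp [dg0]
  have t0 : ∀ x : E, (dg (8 / 27) x + t 1) 0 = x 0 / 4 + t 1 0 := fun x => by simp [dg0]
  have s1 : ∀ x : E, (dg (1 / 27) x + t 0) 1 = x 1 / 27 + t 0 1 := fun x => by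
    rw [PiLp.add_apply, dg1]; ring
  have t1 : ∀ x : E, (dg (8 / 27) x + t 1) 1 = 8 * x 1 / 27 + t 1 1 := fun x => by
    rw [PiLp.add_apply, dg1]; ring
  exact ⟨upL t0 s1 t1 hc hn (hm 0) (hm 1) hF' fun e => h1 (by linarith),
    lowA s0 t0 hc hn (hm 0) (hm 1) hF' fun e => h0 (by linarith)⟩

end Pool.Agent.Results.MP_b039ef_an.No
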